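import Pool.Agent.Helper67.R12.Sheet
import Pool.Agent.Helper34.R8.PTS

/-! # Row PTS (MP_798d7d_nt, rank twelve): the twelve points of the family -/

set_option autoImplicit false

namespace Pool.Helper67.R12

open Pool.Agent.Helper97.RK (cur)
open Pool.Helper17.R8 (ek q4 q3 q2 q1 q0 fI fJ yv y9 xX pI pJ ST_VIE ST_PT)
open Pool.Helper34.R9 (Box FF wF fJh rho ST_CUBP)

namespace S28

theorem ek_one_ss (u : Fin 3 → ℤ) : ek (ss u) 1 = 0 := by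
  rw [Pool.Helper17.R8.S34.ek_one, Fin.sum_univ_eight]
  simp only [ss, Matrix.cons_val]
  ring

/-- the root relation -/
theorem root (hV : ST_VIE) (s : Fin 8 → ℤ) (h1 : ek s 1 = 0) (j : Fin 8) :
    (s j) ^ 8 + ek s 2 * (s j) ^ 6 - ek s 3 * (s j) ^ 5 +
      ek s 4 * (s j) ^ 4 - ek s 5 * (s j) ^ 3 + ek s 6 * (s j) ^ 2 -
      ek s 7 * (s j) + ek s 8 = 0 := by
  have h := hV ℤ s (s j)
  rw [h1, Finset.prod_eq_zero (Finset.mem_univ j) (sub_self _)] at h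
  linarith

/-- a polynomial of degree 6 with seven zeros -/
theorem coef (c0 c1 c2 c3 c4 c5 c6 : ℤ)
    (h : ∀ x : ℤ, c6 * x ^ 6 + c5 * x ^ 5 + c4 * x ^ 4 + c3 * x ^ 3 + c2 * x ^ 2 + c1 * x + c0 = 0) :
    c0 = 0 ∧ c1 = 0 ∧ c2 = 0 ∧ c3 = 0 ∧ c4 = 0 ∧ c5 = 0 ∧ c6 = 0 := by
  have h0 := h 0
  have h1 := h 1
  have h2 := h 2
  have h3 := h 3
  have h4 := h (-1)
  have h5 := h (-2)
  have h6 := h (-3)
  norm_num at h0 h1 h2 h3 h4 h5 h6
  subst h0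
  refine ⟨rfl, ?_, ?_, ?_, ?_, ?_, ?_⟩ <;> linarith

/-- the product, for each of the four partitions -/
theorem prod_pm (s : Fin 8 → ℤ) (k : Fin 4) (x : ℤ) :
    ∏ i, (x - s i) = ((x - s (pm k 0)) * (x - s (pm k 1)) * (x - s (pm k 2)) * (x - s (pm k 3))) *
      ((x - s (pm k 4)) * (x - s (pm k 5)) * (x - s (pm k 6)) * (x - s (pm k 7))) := by
  rw [Fin.prod_univ_eight]
  fin_cases k <;> simp [pm] <;> ring

/-- the sum, for each of the four partitions -/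
theorem sum_pm (s : Fin 8 → ℤ) (k : Fin 4) :
    ∑ i, s i = (s (pm k 0) + s (pm k 1) + s (pm k 2) + s (pm k 3)) +
      (s (pm k 4) + s (pm k 5) + s (pm k 6) + s (pm k 7)) := by
  rw [Fin.sum_univ_eight]
  fin_cases k <;> simp [pm] <;> ring

/-- the elementary symmetric functions in terms of those of a partition -/
theorem ek_pm (hV : ST_VIE) (s : Fin 8 → ℤ) (h1 : ek s 1 = 0) (k : Fin 4) :
    ek s 2 = sg2 s k - sg1 s k ^ 2 + ta2 s k ∧
    ek s 3 = sg3 s k - sg2 s k * sg1 s k + sg1 s k * ta2 s k + ta3 s k ∧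
    ek s 4 = sg4 s k - sg3 s k * sg1 s k + sg2 s k * ta2 s k + sg1 s k * ta3 s k + ta4 s k ∧
    ek s 5 = -(sg4 s k * sg1 s k) + sg3 s k * ta2 s k + sg2 s k * ta3 s k + sg1 s k * ta4 s k ∧
    ek s 6 = sg4 s k * ta2 s k + sg3 s k * ta3 s k + sg2 s k * ta4 s k ∧
    ek s 7 = sg4 s k * ta3 s k + sg3 s k * ta4 s k ∧
    ek s 8 = sg4 s k * ta4 s k := by
  have hs := sum_pm s k
  rw [← Pool.Helper17.R8.S34.ek_one, h1] at hs
  have key : ∀ x : ℤ, x ^ 8 - ek s 1 * x ^ 7 + ek s 2 * x ^ 6 - ek s 3 * x ^ 5 + ek s 4 * x ^ 4 -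
      ek s 5 * x ^ 3 + ek s 6 * x ^ 2 - ek s 7 * x + ek s 8 =
      (x ^ 4 - sg1 s k * x ^ 3 + sg2 s k * x ^ 2 - sg3 s k * x + sg4 s k) *
      (x ^ 4 + sg1 s k * x ^ 3 + ta2 s k * x ^ 2 - ta3 s k * x + ta4 s k) := by
    intro x
    rw [← hV ℤ s x, prod_pm s k x]
    have hA : (x - s (pm k 0)) * (x - s (pm k 1)) * (x - s (pm k 2)) * (x - s (pm k 3)) =
        x ^ 4 - sg1 s k * x ^ 3 + sg2 s k * x ^ 2 - sg3 s k * x + sg4 s k := by
      unfold sg1 sg2 sg3 sg4 c1 c2 c3 c4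
      ring
    have hτ : s (pm k 4) + s (pm k 5) + s (pm k 6) + s (pm k 7) = - sg1 s k := by
      unfold sg1 c1
      linarith
    have hB : (x - s (pm k 4)) * (x - s (pm k 5)) * (x - s (pm k 6)) * (x - s (pm k 7)) =
        x ^ 4 - (s (pm k 4) + s (pm k 5) + s (pm k 6) + s (pm k 7)) * x ^ 3 + ta2 s k * x ^ 2 -
          ta3 s k * x + ta4 s k := by
      unfold ta2 ta3 ta4 c2 c3 c4
      ring
    rw [hA, hB, hτ]
    ring
  obtain ⟨e0, e1, e2, e3, e4, e5, e6⟩ := coef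
    (ek s 8 - sg4 s k * ta4 s k)
    (-(ek s 7) + (sg4 s k * ta3 s k + sg3 s k * ta4 s k))
    (ek s 6 - (sg4 s k * ta2 s k + sg3 s k * ta3 s k + sg2 s k * ta4 s k))
    (-(ek s 5) + (-(sg4 s k * sg1 s k) + sg3 s k * ta2 s k + sg2 s k * ta3 s k + sg1 s k * ta4 s k))
    (ek s 4 - (sg4 s k - sg3 s k * sg1 s k + sg2 s k * ta2 s k + sg1 s k * ta3 s k + ta4 s k))
    (-(ek s 3) + (sg3 s k - sg2 s k * sg1 s k + sg1 s k * ta2 s k + ta3 s k))
    (ek s 2 - (sg2 s k - sg1 s k ^ 2 + ta2 s k))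
    (fun x => by
      have := key x
      rw [h1] at this
      linear_combination this)
  refine ⟨by linarith, by linarith, by linarith, by linarith, by linarith, by linarith, by linarith⟩

/-- the conic points are on the plane cubic -/
theorem con (hV : ST_VIE) (hR : ST_REL) (T : Par) (k : Fin 4) :
    FF (ek (sa T.1)) (tt T) (kX (sa T.1) k (yy T k)) (yy T k) (kY (sa T.1) k (yy T k)) = 0 := by
  obtain ⟨ht, hy, -⟩ := hR T
  have h1 : ek (sa T.1) 1 = 0 := ek_one_ss _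
  obtain ⟨h2, h3, h4, h5, h6, h7, h8⟩ := ek_pm hV (sa T.1) h1 k
  have hE := chk_E (uu T.1) k
  have hE3 : ek (sa T.1) 3 = E3 (uu T.1) := by
    obtain ⟨-, h3', -⟩ := ek_pm hV (sa T.1) h1 0
    have hs := sum_pm (sa T.1) 0
    rw [← Pool.Helper17.R8.S34.ek_one, h1] at hs
    rw [h3']
    have hτ : c1 (ss (uu T.1) 4) (ss (uu T.1) 5) (ss (uu T.1) 6) (ss (uu T.1) 7) =
        - c1 (ss (uu T.1) 0) (ss (uu T.1) 1) (ss (uu T.1) 2) (ss (uu T.1) 3) := by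
      unfold c1
      have : pm 0 = ![0, 1, 2, 3, 4, 5, 6, 7] := rfl
      rw [this] at hs
      simp only [Matrix.cons_val] at hs
      change 0 = (ss (uu T.1) 0 + ss (uu T.1) 1 + ss (uu T.1) 2 + ss (uu T.1) 3) +
        (ss (uu T.1) 4 + ss (uu T.1) 5 + ss (uu T.1) 6 + ss (uu T.1) 7) at hs
      linarith
    have hsg1 : sg1 (sa T.1) 0 = c1 (ss (uu T.1) 0) (ss (uu T.1) 1) (ss (uu T.1) 2) (ss (uu T.1) 3) := rfl
    have hsg2 : sg2 (sa T.1) 0 = c2 (ss (uu T.1) 0) (ss (uu T.1) 1) (ss (uu T.1) 2) (ss (uu T.1) 3) := rfl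
    have hsg3 : sg3 (sa T.1) 0 = c3 (ss (uu T.1) 0) (ss (uu T.1) 1) (ss (uu T.1) 2) (ss (uu T.1) 3) := rfl
    have hta2 : ta2 (sa T.1) 0 = c2 (ss (uu T.1) 4) (ss (uu T.1) 5) (ss (uu T.1) 6) (ss (uu T.1) 7) := rfl
    have hta3 : ta3 (sa T.1) 0 = c3 (ss (uu T.1) 4) (ss (uu T.1) 5) (ss (uu T.1) 6) (ss (uu T.1) 7) := rfl
    unfold E3
    rw [hτ, hsg1, hsg2, hsg3, hta2, hta3]
    ring
  unfold kX kY
  rw [chk_con (ek (sa T.1)) (sg1 (sa T.1) k) (sg2 (sa T.1) k) (sg3 (sa T.1) k) (sg4 (sa T.1) k)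
    (ta2 (sa T.1) k) (ta3 (sa T.1) k) (ta4 (sa T.1) k) (tt T) (yy T k) (kap (sa T.1) k) rfl
    h2 h3 h4 h5 h6 h7 h8]
  have hz : tt T + (yy T k + (sg1 (sa T.1) k * sg2 (sa T.1) k - sg3 (sa T.1) k)) *
      (yy T k + (sg1 (sa T.1) k * sg2 (sa T.1) k + ta3 (sa T.1) k)) +
      sg4 (sa T.1) k * (sg2 (sa T.1) k - ta2 (sa T.1) k) = 0 := by
    have hyk : zz T = 2 * yy T k + gg (sa T.1) k := by
      have := hy k
      linarith
    unfold gg at hyk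
    rw [hE3, ← hE, hyk] at ht
    change _ = (sg3 (sa T.1) k + ta3 (sa T.1) k) ^ 2 - 4 * sg4 (sa T.1) k *
      (sg2 (sa T.1) k - ta2 (sa T.1) k) - _ at ht
    have h4 : 4 * (tt T + (yy T k + (sg1 (sa T.1) k * sg2 (sa T.1) k - sg3 (sa T.1) k)) *
      (yy T k + (sg1 (sa T.1) k * sg2 (sa T.1) k + ta3 (sa T.1) k)) +
      sg4 (sa T.1) k * (sg2 (sa T.1) k - ta2 (sa T.1) k)) = 0 := by
      linear_combination ht
    linarith
  rw [hz, mul_zero]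

/-- the base modulo 19 -/
theorem base19 (hR : ST_REL) (T : Par) :
    (∀ i, ((sa T.1 i : ℤ) : ZMod 19) = ((![14, 14, 16, 13, 5, 1, 1, 12] : Fin 8 → ZMod 19) i)) ∧
    ((tt T : ℤ) : ZMod 19) = 4 ∧
    (∀ k, ((yy T k : ℤ) : ZMod 19) = ((![18, 4, 14, 6] : Fin 4 → ZMod 19) k)) := by
  obtain ⟨-, -, -, -, hs, ht, hy, -, -⟩ := hR T
  have h19 : (19 : ℤ) ∣ ((QQ.factorial : ℕ) : ℤ) := by
    exact_mod_cast (Nat.dvd_factorial (by norm_num) (by unfold QQ; norm_num) :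
      19 ∣ Nat.factorial QQ)
  have cast : ∀ a b : ℤ, ((QQ.factorial : ℕ) : ℤ) ∣ a - b → ((a : ℤ) : ZMod 19) = (b : ZMod 19) := by
    intro a b h
    have := (ZMod.intCast_zmod_eq_zero_iff_dvd _ 19).2 (h19.trans h)
    push_cast at this
    exact sub_eq_zero.1 this
  refine ⟨?_, ?_, ?_⟩
  · intro i
    rw [cast _ _ (hs i)]
    revert i
    decide
  · rw [cast _ _ ht]
    decide
  · intro k
    rw [cast _ _ (hy k)]
    revert k
    decide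

/-- the base modulo 19 -/
def s19 : Fin 8 → ZMod 19 := ![14, 14, 16, 13, 5, 1, 1, 12]
def y19 : Fin 4 → ZMod 19 := ![18, 4, 14, 6]

theorem kX_cast (s : Fin 8 → ℤ) (k : Fin 4) (y : ℤ) :
    ((kX s k y : ℤ) : ZMod 19) = kX (fun i => ((s i : ℤ) : ZMod 19)) k (y : ZMod 19) := by
  unfold kX kap sg4 sg1 sg3 sg2 c1 c2 c3 c4
  push_cast
  rfl

theorem kY_cast (s : Fin 8 → ℤ) (k : Fin 4) (y : ℤ) :
    ((kY s k y : ℤ) : ZMod 19) = kY (fun i => ((s i : ℤ) : ZMod 19)) k (y : ZMod 19) := by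
  unfold kY kap sg4 sg1 sg3 sg2 c1 c2 c3 c4
  push_cast
  rfl

theorem con_ne (hR : ST_REL) (T : Par) (k : Fin 4) :
    kX (sa T.1) k (yy T k) * yy T k ≠ 0 ∧
    6 * (sa T.1 (rf k) ^ 2 * (kX (sa T.1) k (yy T k) * yy T k) -
      kY (sa T.1) k (yy T k) * yy T k) ≠ 0 := by
  obtain ⟨hs, -, hy⟩ := base19 hR T
  have hs' : (fun i => ((sa T.1 i : ℤ) : ZMod 19)) = s19 := by
    funext i
    exact hs i
  have hX : ((kX (sa T.1) k (yy T k) : ℤ) : ZMod 19) = kX s19 k (y19 k) := by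
    rw [kX_cast, hs', hy k]
    rfl
  have hY : ((kY (sa T.1) k (yy T k) : ℤ) : ZMod 19) = kY s19 k (y19 k) := by
    rw [kY_cast, hs', hy k]
    rfl
  have hr : ((sa T.1 (rf k) : ℤ) : ZMod 19) = s19 (rf k) := hs (rf k)
  have hyk : ((yy T k : ℤ) : ZMod 19) = y19 k := hy k
  constructor
  · intro h
    have h1 : ((kX (sa T.1) k (yy T k) * yy T k : ℤ) : ZMod 19) = 0 := by
      rw [h]
      simp
    push_cast at h1
    rw [hX, hyk] at h1
    revert h1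
    clear hX hY hr hyk h
    revert k
    decide
  · intro h
    have h1 : ((6 * (sa T.1 (rf k) ^ 2 * (kX (sa T.1) k (yy T k) * yy T k) -
      kY (sa T.1) k (yy T k) * yy T k) : ℤ) : ZMod 19) = 0 := by
      rw [h]
      simp
    push_cast at h1
    rw [hX, hY, hyk, hr] at h1
    revert h1
    clear hX hY hr hyk h
    revert k
    decide

theorem pv_lt (T : Par) (j : Fin 12) (h : (j : ℕ) < 7) :
    pv T j = 6 * (sa T.1 ⟨j, by omega⟩ ^ 2 - sa T.1 7 ^ 2) := by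
  unfold pv fv
  rw [dif_pos h]

theorem px_lt (T : Par) (j : Fin 12) (h : (j : ℕ) < 7) :
    px T j = 3 * xX (ek (sa T.1)) (tt T) (sa T.1 ⟨j, by omega⟩ ^ 2)
      (yv (ek (sa T.1)) (tt T) (sa T.1 ⟨j, by omega⟩)) (sa T.1 7 ^ 2) 1
      (yv (ek (sa T.1)) (tt T) (sa T.1 7)) := by
  unfold px fx
  rw [dif_pos h]

theorem pv_seven (T : Par) (j : Fin 12) (h : (j : ℕ) = 7) :
    pv T j = 6 * (sa T.1 0 ^ 2 * tt T + ek (sa T.1) 8) := by
  unfold pv fv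
  rw [dif_neg (by omega), if_pos h]

theorem px_seven (T : Par) (j : Fin 12) (h : (j : ℕ) = 7) :
    px T j = 3 * xX (ek (sa T.1)) (tt T) (sa T.1 0 ^ 2) (yv (ek (sa T.1)) (tt T) (sa T.1 0))
      (-(ek (sa T.1) 8)) (tt T) (y9 (ek (sa T.1)) (tt T)) := by
  unfold px fx
  rw [dif_neg (by omega), if_pos h]

theorem pv_con (T : Par) (j : Fin 12) (h : ¬ (j : ℕ) < 7) (h' : ¬ (j : ℕ) = 7) (k : Fin 4)
    (hk : (k : ℕ) = (j : ℕ) - 8) :
    pv T j = 6 * (sa T.1 (rf k) ^ 2 * (kX (sa T.1) k (yy T k) * yy T k) -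
      kY (sa T.1) k (yy T k) * yy T k) := by
  have hb : (j : ℕ) - 8 < 4 := by
    have := j.2
    omega
  have hk' : k = ⟨(j : ℕ) - 8, hb⟩ := Fin.ext hk
  subst hk'
  unfold pv fv
  rw [dif_neg h, if_neg h']

theorem px_con (T : Par) (j : Fin 12) (h : ¬ (j : ℕ) < 7) (h' : ¬ (j : ℕ) = 7) (k : Fin 4)
    (hk : (k : ℕ) = (j : ℕ) - 8) :
    px T j = 3 * xX (ek (sa T.1)) (tt T) (sa T.1 (rf k) ^ 2)
      (yv (ek (sa T.1)) (tt T) (sa T.1 (rf k))) (kY (sa T.1) k (yy T k) * yy T k)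
      (kX (sa T.1) k (yy T k) * yy T k)
      (wF (ek (sa T.1)) (tt T) (kX (sa T.1) k (yy T k)) (yy T k) (kY (sa T.1) k (yy T k))) := by
  have hb : (j : ℕ) - 8 < 4 := by
    have := j.2
    omega
  have hk' : k = ⟨(j : ℕ) - 8, hb⟩ := Fin.ext hk
  subst hk'
  unfold px fx
  rw [dif_neg h, if_neg h']

theorem t_ne (hR : ST_REL) (T : Par) : tt T ≠ 0 := by
  obtain ⟨-, ht, -⟩ := base19 hR T
  intro h
  rw [h] at ht
  revert ht
  decide

theorem lt_ne (hR : ST_REL) (T : Par) (i : Fin 8) (hi : i ≠ 7) :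
    6 * (sa T.1 i ^ 2 - sa T.1 7 ^ 2) ≠ 0 := by
  obtain ⟨hs, -, -⟩ := base19 hR T
  intro h
  have h1 : ((6 * (sa T.1 i ^ 2 - sa T.1 7 ^ 2) : ℤ) : ZMod 19) = 0 := by
    rw [h]
    simp
  push_cast at h1
  rw [hs i, hs 7] at h1
  revert h1 hi
  clear h
  revert i
  decide

theorem seven_ne (hR : ST_REL) (T : Par) :
    6 * (sa T.1 0 ^ 2 * tt T + ek (sa T.1) 8) ≠ 0 := by
  obtain ⟨hs, ht, -⟩ := base19 hR T
  intro h
  have h1 : ((6 * (sa T.1 0 ^ 2 * tt T + ek (sa T.1) 8) : ℤ) : ZMod 19) = 0 := by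
    rw [h]
    simp
  push_cast at h1
  rw [Pool.Helper17.R8.S34.ek_eight] at h1
  push_cast at h1
  rw [Fin.prod_univ_eight, hs 0, hs 1, hs 2, hs 3, hs 4, hs 5, hs 6, hs 7, ht] at h1
  revert h1
  decide

end S28

open S28

theorem st_PTS (hV : ST_VIE) (hP : ST_PT) (hC : ST_CUBP) (hR : ST_REL) : ST_PTS := by
  intro T j
  obtain ⟨-, -, hA, hB, -⟩ := hR T
  have h1 : ek (sa T.1) 1 = 0 := ek_one_ss _
  have hroot := root hV (sa T.1) h1
  by_cases h : (j : ℕ) < 7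
  · have hne : (⟨j, by omega⟩ : Fin 8) ≠ 7 := by
      intro h2
      have := congrArg Fin.val h2
      simp only at this
      omega
    have hv : pv T j ≠ 0 := by
      rw [pv_lt T j h]
      exact lt_ne hR T _ hne
    exact ⟨hv, Pool.Helper17.R8.S34.pts_c1 hP (ek (sa T.1)) (tt T) (cA T) (cB T) _ _ hA hB
      (hroot ⟨j, by omega⟩) (hroot 7) (px T j) (pv T j) (px_lt T j h) (pv_lt T j h) hv⟩
  · by_cases h' : (j : ℕ) = 7
    · have hv : pv T j ≠ 0 := by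
        rw [pv_seven T j h']
        exact seven_ne hR T
      exact ⟨hv, Pool.Helper17.R8.S34.pts_c2 hP (ek (sa T.1)) (tt T) (cA T) (cB T) _ hA hB
        (t_ne hR T) (hroot 0) (px T j) (pv T j) (px_seven T j h') (pv_seven T j h') hv⟩
    · have hj := j.2
      obtain ⟨k, hk⟩ : ∃ k : Fin 4, (k : ℕ) = (j : ℕ) - 8 := ⟨⟨(j : ℕ) - 8, by omega⟩, rfl⟩
      obtain ⟨hX, hv⟩ := con_ne hR T k
      rw [px_con T j h h' k hk, pv_con T j h h' k hk]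
      exact ⟨hv, hC (ek (sa T.1)) (tt T) (cA T) (cB T) (sa T.1 (rf k)) (kX (sa T.1) k (yy T k))
        (yy T k) (kY (sa T.1) k (yy T k)) hA hB (hroot (rf k)) (con hV hR T k) hX hv⟩

end Pool.Helper67.R12
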